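import Pool.Agent.N600.G3.Stm

/-!
Project G3 (helper600), part LEN: word lengths by telescoping (helper454).
-/

set_option autoImplicit false

namespace Pool.Agent.N454.G3

open Pool.Agent.N600.G3
open scoped Pointwise

universe u

section

variable {G : Type u} [Group G] {T : Set G}

lemma pow_mono (h1 : (1 : G) ∈ T) {m n : ℕ} (h : m ≤ n) {x : G} (hx : x ∈ T ^ m) : x ∈ T ^ n :=
  Set.pow_subset_pow_right h1 h hx

lemma inv_mem_pow (hT : T⁻¹ = T) {n : ℕ} {x : G} (hx : x ∈ T ^ n) : x⁻¹ ∈ T ^ n := by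
  rw [← hT, inv_pow, Set.mem_inv, inv_inv]
  exact hx

lemma hh_mem {s : ℕ → G} (hs : ∀ i, s i ∈ T) (n : ℕ) : hh s n ∈ T ^ n := by
  induction n with
  | zero => rw [pow_zero]; exact Set.mem_one.2 rfl
  | succ n ih =>
    rw [pow_succ]
    exact Set.mul_mem_mul ih (hs n)

lemma CT_mem (hT : T⁻¹ = T) {c : G} (hc : c ∈ CT T) : c ∈ T ^ 4 := by
  obtain ⟨a, ha, b, hb, rfl⟩ := hc
  have h1 : a⁻¹ ∈ T := by rw [← hT, Set.mem_inv, inv_inv]; exact ha
  have h2 : b⁻¹ ∈ T := by rw [← hT, Set.mem_inv, inv_inv]; exact hb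
  rw [show (4 : ℕ) = 1 + 1 + 1 + 1 from rfl, pow_add, pow_add, pow_add, pow_one]
  exact Set.mul_mem_mul (Set.mul_mem_mul (Set.mul_mem_mul ha hb) h1) h2

lemma telescope (hT : T⁻¹ = T) {s : ℕ → G} (hs : ∀ i, s i ∈ T) :
    ∀ (n N : ℕ), n ≤ N → ∀ e : Fin (n + 1) → G, (∀ j, e j ∈ T ^ 4) →
      ∃ z ∈ T ^ (4 * (n + 1) + n),
        (List.ofFn fun j : Fin (n + 1) => hh s (N - j) * e j * (hh s (N - j))⁻¹).prod =
          hh s N * z * (hh s (N - n))⁻¹ := by
  intro n
  induction n with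
  | zero =>
    intro N _ e he
    refine ⟨e 0, he 0, ?_⟩
    simp
  | succ n ih =>
    intro N hN e he
    obtain ⟨M, rfl⟩ : ∃ M, N = M + 1 := ⟨N - 1, by omega⟩
    obtain ⟨z, hz, hprod⟩ := ih M (by omega) (fun j => e j.succ) (fun j => he j.succ)
    refine ⟨e 0 * (s M)⁻¹ * z, ?_, ?_⟩
    · have h1 : (s M)⁻¹ ∈ T ^ 1 := inv_mem_pow hT (by rw [pow_one]; exact hs M)
      rw [show 4 * (n + 1 + 1) + (n + 1) = 4 + 1 + (4 * (n + 1) + n) by ring, pow_add, pow_add]
      exact Set.mul_mem_mul (Set.mul_mem_mul (he 0) h1) hz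
    · rw [List.ofFn_succ, List.prod_cons]
      have h2 : (fun i : Fin (n + 1) => hh s (M + 1 - (i.succ : Fin (n + 2))) * e i.succ *
          (hh s (M + 1 - (i.succ : Fin (n + 2))))⁻¹) =
          fun i : Fin (n + 1) => hh s (M - i) * e i.succ * (hh s (M - i))⁻¹ := by
        funext i
        rw [Fin.val_succ, Nat.add_sub_add_right]
      rw [h2, hprod, Fin.val_zero, Nat.sub_zero, show M + 1 - (n + 1) = M - n by omega]
      have h3 : hh s (M + 1) = hh s M * s M := rfl
      rw [h3]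
      group

lemma ite_conj (h c : G) (b : Bool) :
    (if b then h * c * h⁻¹ else 1) = h * (if b then c else 1) * h⁻¹ := by
  cases b <;> simp

end

theorem t_len : S_LEN.{u} := by
  intro G _ T h1 hT s hs c d hc hd K hK
  obtain ⟨n, rfl⟩ : ∃ n, K = n + 1 := ⟨K - 1, by omega⟩
  have hone : (1 : G) ∈ T ^ 4 := Set.one_mem_pow h1
  constructor
  · intro ε
    have h4 : ∀ j : Fin (n + 1), (if ε j then c else 1) ∈ T ^ 4 := by
      intro j
      split_ifs
      · exact CT_mem hT hc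
      · exact hone
    obtain ⟨z, hz, hprod⟩ := telescope hT hs n n le_rfl (fun j => if ε j then c else 1) h4
    have h5 : AA (fun j : Fin (n + 1) => hh s (n + 1 - 1 - j) * c * (hh s (n + 1 - 1 - j))⁻¹) ε =
        hh s n * z * (hh s (n - n))⁻¹ := by
      rw [← hprod]
      unfold AA
      congr 2
      funext j
      rw [ite_conj, Nat.add_sub_cancel]
    rw [h5, Nat.sub_self]
    have h6 : hh s 0 = 1 := rfl
    rw [h6, inv_one, mul_one]
    refine pow_mono h1 (m := n + (4 * (n + 1) + n)) (by omega) ?_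
    rw [pow_add]
    exact Set.mul_mem_mul (hh_mem hs n) hz
  · intro x
    have h4 : ∀ j : Fin (n + 1), (if x j then d else 1) ∈ T ^ 4 := by
      intro j
      split_ifs
      · exact CT_mem hT hd
      · exact hone
    obtain ⟨z, hz, hprod⟩ := telescope hT hs n (2 * n + 1) (by omega)
      (fun j => if x j then d else 1) h4
    have h5 : AA (fun j : Fin (n + 1) => hh s (n + 1 + (n + 1 - 1 - j)) * d *
        (hh s (n + 1 + (n + 1 - 1 - j)))⁻¹) x =
        hh s (2 * n + 1) * z * (hh s (2 * n + 1 - n))⁻¹ := by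
      rw [← hprod]
      unfold AA
      congr 2
      funext j
      have h7 : n + 1 + (n + 1 - 1 - (j : ℕ)) = 2 * n + 1 - (j : ℕ) := by
        have := j.isLt
        omega
      rw [ite_conj, h7]
    rw [h5]
    refine pow_mono h1 (m := 2 * n + 1 + (4 * (n + 1) + n) + (2 * n + 1 - n)) (by omega) ?_
    rw [pow_add, pow_add]
    exact Set.mul_mem_mul (Set.mul_mem_mul (hh_mem hs _) hz) (inv_mem_pow hT (hh_mem hs _))

end Pool.Agent.N454.G3
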